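import Pool.Agent.H92.MTP.Com

/-!
Board mtp_modules, row W3: two primes.
-/

set_option autoImplicit false

open Finset Real ArithmeticFunction
open scoped Nat

namespace Pool.Agent.H92.MTP

open Pool.Agent.H31.MP
open Pool.Agent.H30.BV (NX wx WX)

theorem pf_W3 (hPU : T_PU) (hRH : T_RH) (hTE : T_TE) (hVR : T_VR) (hVV : T_VV) (hDG : T_DG) :
    T_W3 := by
  classical
  intro k η κ hk hη hκ hκ8
  obtain ⟨b, hb⟩ := hPU (k + 1) η (by omega) hη
  refine ⟨b, ?_⟩
  intro y₀ A δ C hy hδ hδb hC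
  obtain ⟨X₁, hX₁⟩ := hb y₀ A δ κ C (by omega) hδ hκ hδb hC
  obtain ⟨X₂, hX₂⟩ := eventually_size y₀ δ hδ
  refine ⟨max X₁ X₂, ?_⟩
  intro Z hZ Y h i l e hinj hh hWh hY hYZ hl he heZ
  obtain ⟨hZ1, hlZ, hyz, hsz⟩ := hX₂ Z ((le_max_right _ _).trans hZ)
  have hZ0 : 0 < Z := by linarith
  have hb4 : (0 : ℝ) ≤ b := Nat.cast_nonneg b
  have hδ4 : δ ≤ 1 / 4 := by nlinarith
  have hz4 : Z ^ δ ≤ Z ^ (1 / 4 : ℝ) := Real.rpow_le_rpow_of_exponent_le hZ1.le hδ4
  have hY4 : Y ≤ Z ^ (1 / 4 : ℝ) :=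
    hYZ.trans (Real.rpow_le_rpow_of_exponent_le hZ1.le (by linarith))
  set D : ℝ := Z ^ (1 / 4 - κ) with hDdef
  have hD1 : 1 < D := Real.one_lt_rpow hZ1 (by linarith)
  have hD4 : D ≤ Z ^ (1 / 4 : ℝ) := Real.rpow_le_rpow_of_exponent_le hZ1.le (by linarith)
  have hlD : Real.log D = (1 / 4 - κ) * Real.log Z := Real.log_rpow hZ0 _
  have hz1 : 1 ≤ Z ^ δ := Real.one_le_rpow hZ1.le hδ.le
  obtain ⟨ρ, hρ1, hρb, hρs, hQ0, hQM⟩ := hRH (Z ^ δ) D hz1 hD1
  have hres : Wt k (Z ^ δ) Y C (res i l) := res_wt i hC hl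
  obtain ⟨hW', hQF', hLam'⟩ := hTE k (Z ^ δ) Y D C ρ (res i l) hY hD1.le hρb hρs hC hres
  have hinj' : Function.Injective (Fin.cons e h : Fin (k + 1) → ℕ) := by
    rw [Fin.cons_injective_iff]
    refine ⟨?_, hinj⟩
    rintro ⟨j, hj⟩
    exact he j hj.symm
  have hh' : ∀ j, (((Fin.cons e h : Fin (k + 1) → ℕ) j : ℕ) : ℝ) ≤ 20 * Real.log Z := by
    intro j
    refine Fin.cases ?_ ?_ j
    · rw [Fin.cons_zero]; exact heZ
    · intro j'
      rw [Fin.cons_succ]
      have := hh j'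
      linarith
  have hDY : (D * Y) ^ 2 ≤ Z ^ (1 / 2 - κ) := by
    have h1 : D * Y ≤ Z ^ (1 / 4 - κ) * Z ^ (κ / 4) :=
      mul_le_mul_of_nonneg_left hYZ (by positivity)
    have h2 : Z ^ (1 / 4 - κ) * Z ^ (κ / 4) = Z ^ (1 / 4 - 3 * κ / 4) := by
      rw [← Real.rpow_add hZ0]; congr 1; ring
    rw [h2] at h1
    calc (D * Y) ^ 2 ≤ (Z ^ (1 / 4 - 3 * κ / 4)) ^ 2 := by
          apply pow_le_pow_left₀ (by positivity) h1
      _ = Z ^ (1 / 2 - 3 * κ / 2) := by
          rw [← Real.rpow_natCast, ← Real.rpow_mul hZ0.le]; congr 1; push_cast; ring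
      _ ≤ Z ^ (1 / 2 - κ) := Real.rpow_le_rpow_of_exponent_le hZ1.le (by linarith)
  have hPU2 := (hX₁ Z ((le_max_left _ _).trans hZ) (D * Y) (Fin.cons e h : Fin (k + 1) → ℕ)
    i.succ (ten ρ (res i l)) hinj' hh' (by rw [Fin.cons_succ]; exact hWh i) (by nlinarith) hDY hW'
    (by
      intro d hd
      unfold ten res at hd
      by_contra hne
      apply hd
      rw [if_neg hne, mul_zero])).2
  rw [Fin.cons_succ] at hPU2
  -- the facts for the `n` that matter
  have key : ∀ n ∈ Omr Z y₀ (Z ^ δ) h,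
      wp Z (n + h i) * ip (n + e) * Lam (Z ^ δ) Y l h n ^ 2 ≠ 0 →
      (1 + e).Coprime (primorial y₀) ∧ n ∈ Omr Z y₀ (Z ^ δ) (Fin.cons e h : Fin (k + 1) → ℕ) ∧
      wp Z (n + h i) * ip (n + e) * Lam (Z ^ δ) Y l h n ^ 2 =
        1 / Real.log Z * (wx Z (n + h i) *
          Lam (Z ^ δ) (D * Y) (ten ρ (res i l)) (Fin.cons e h : Fin (k + 1) → ℕ) n ^ 2) := by
    intro n hn hne
    have h1 : wp Z (n + h i) ≠ 0 := fun h0 => hne (by rw [h0]; ring)
    have h2 : ip (n + e) ≠ 0 := fun h0 => hne (by rw [h0]; ring)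
    have hp1 : (n + h i).Prime := by
      by_contra hc
      apply h1
      unfold wp
      rw [if_neg hc]
    have hp2 : (n + e).Prime := by
      by_contra hc
      apply h2
      unfold ip
      rw [if_neg hc]
    have hwx : wx Z (n + h i) ≠ 0 := by
      intro hc
      apply h1
      unfold wp
      rw [if_pos hp1, hc, zero_div]
    have hbig := wx_ne hZ0 hwx
    push_cast at hbig
    have hhi := hh i
    have hnn : (y₀ : ℝ) + Z ^ (1 / 4 : ℝ) < n := by linarith
    have hr4 : 0 ≤ Z ^ (1 / 4 : ℝ) := Real.rpow_nonneg hZ0.le _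
    have hyn : y₀ < n := by
      have : (y₀ : ℝ) < n := by linarith
      exact_mod_cast this
    have hy0 : (0 : ℝ) ≤ y₀ := Nat.cast_nonneg _
    have he0 : (0 : ℝ) ≤ e := Nat.cast_nonneg _
    have hhi0 : (0 : ℝ) ≤ h i := Nat.cast_nonneg _
    have hnO : n ∈ Om Z y₀ := by
      unfold Omr at hn
      exact (mem_filter.1 hn).1
    refine ⟨cop_of_prime hnO hp2 hyn, omr_cons hn hp2 (by push_cast; linarith), ?_⟩
    rw [hLam' h e n, lam1_prime hD1.le hp2 (by push_cast; linarith) hρ1,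
      lam_res hl h i n hp1 (by push_cast; linarith)]
    unfold wp ip
    rw [if_pos hp1, if_pos hp2]
    ring
  have hZA : 0 ≤ Z / Real.log Z ^ A := by positivity
  split_ifs with hcop
  · -- the sum over the new set
    have hS : S3 Z y₀ (Z ^ δ) Y l h i e ≤ 1 / Real.log Z *
        ∑ n ∈ Omr Z y₀ (Z ^ δ) (Fin.cons e h : Fin (k + 1) → ℕ), wx Z (n + h i) *
          Lam (Z ^ δ) (D * Y) (ten ρ (res i l)) (Fin.cons e h : Fin (k + 1) → ℕ) n ^ 2 := by
      unfold S3
      rw [Finset.mul_sum]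
      calc ∑ n ∈ Omr Z y₀ (Z ^ δ) h, wp Z (n + h i) * ip (n + e) * Lam (Z ^ δ) Y l h n ^ 2
          ≤ ∑ n ∈ Omr Z y₀ (Z ^ δ) h,
              (if n ∈ Omr Z y₀ (Z ^ δ) (Fin.cons e h : Fin (k + 1) → ℕ) then
                1 / Real.log Z * (wx Z (n + h i) * Lam (Z ^ δ) (D * Y) (ten ρ (res i l))
                  (Fin.cons e h : Fin (k + 1) → ℕ) n ^ 2) else 0) := by
            apply Finset.sum_le_sum
            intro n hn
            by_cases hne : wp Z (n + h i) * ip (n + e) * Lam (Z ^ δ) Y l h n ^ 2 = 0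
            · rw [hne]
              split_ifs
              · have := wx_nonneg Z (n + h i)
                positivity
              · exact le_rfl
            · obtain ⟨-, h2, h3⟩ := key n hn hne
              rw [if_pos h2, h3]
        _ = ∑ n ∈ (Omr Z y₀ (Z ^ δ) h).filter
              (fun n => n ∈ Omr Z y₀ (Z ^ δ) (Fin.cons e h : Fin (k + 1) → ℕ)),
                1 / Real.log Z * (wx Z (n + h i) * Lam (Z ^ δ) (D * Y) (ten ρ (res i l))
                  (Fin.cons e h : Fin (k + 1) → ℕ) n ^ 2) := by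
            rw [Finset.sum_filter]
        _ ≤ _ := by
            apply Finset.sum_le_sum_of_subset_of_nonneg
            · intro n hn
              exact (mem_filter.1 hn).2
            · intro n _ _
              have := wx_nonneg Z (n + h i)
              positivity
    have hnew := newpt hTE hVR hVV hDG hk (by omega) hyz hY hD1 hC hρb hρs hQ0 hQM hres he
    have hWX := WX_nonneg Z
    have hφ : (0 : ℝ) < (primorial y₀).totient := by
      exact_mod_cast Nat.totient_pos.2 (primorial_pos y₀)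
    have hlZ0 : 0 < Real.log Z := by linarith
    calc S3 Z y₀ (Z ^ δ) Y l h i e ≤ 1 / Real.log Z *
        ∑ n ∈ Omr Z y₀ (Z ^ δ) (Fin.cons e h : Fin (k + 1) → ℕ), wx Z (n + h i) *
          Lam (Z ^ δ) (D * Y) (ten ρ (res i l)) (Fin.cons e h : Fin (k + 1) → ℕ) n ^ 2 := hS
      _ ≤ 1 / Real.log Z * ((1 + η) * (WX Z / (primorial y₀).totient *
          V2 y₀ (Z ^ δ) (Fin.cons e h : Fin (k + 1) → ℕ) *
            QF (Z ^ δ) (D * Y) (ten ρ (res i l))) + Z / Real.log Z ^ A) :=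
          mul_le_mul_of_nonneg_left hPU2 (by positivity)
      _ = (1 + η) * (WX Z / ((primorial y₀).totient * Real.log Z)) *
          (V2 y₀ (Z ^ δ) (Fin.cons e h : Fin (k + 1) → ℕ) *
            QF (Z ^ δ) (D * Y) (ten ρ (res i l))) + 1 / Real.log Z * (Z / Real.log Z ^ A) := by
          field_simp
      _ ≤ (1 + η) * (WX Z / ((primorial y₀).totient * Real.log Z)) *
          (V2 y₀ (Z ^ δ) h * QF (Z ^ δ) Y (res i l) *
            ((primorial y₀ / (primorial y₀).totient / Real.log D) * Rp y₀ e h)) +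
              1 * (Z / Real.log Z ^ A) := by
          apply add_le_add
          · exact mul_le_mul_of_nonneg_left hnew (by positivity)
          · apply mul_le_mul_of_nonneg_right _ hZA
            rw [div_le_one hlZ0]
            exact hlZ
      _ = _ := by
          rw [hlD]
          unfold MM
          ring
  · -- the sum is zero
    have hS : S3 Z y₀ (Z ^ δ) Y l h i e = 0 := by
      unfold S3
      apply Finset.sum_eq_zero
      intro n hn
      by_contra hne
      exact hcop (key n hn hne).1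
    rw [hS]
    linarith

end Pool.Agent.H92.MTP
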