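import Pool.Agent.H92.MTP.Com

/-!
Board mtp_modules, row W4: three primes.
-/

set_option autoImplicit false

open Finset Real ArithmeticFunction
open scoped Nat

namespace Pool.Agent.H92.MTP

open Pool.Agent.H31.MP
open Pool.Agent.H30.BV (NX wx WX)

theorem pf_W4 (hPU : T_PU) (hRH : T_RH) (hTE : T_TE) (hVR : T_VR) (hVV : T_VV) (hDG : T_DG) :
    T_W4 := by
  classical
  intro k η hk hη
  obtain ⟨b, hb⟩ := hPU (k + 1 + 1) η (by omega) hη
  refine ⟨b, ?_⟩
  intro y₀ A δ C hy hδ hδb hC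
  obtain ⟨X₁, hX₁⟩ := hb y₀ A δ (1 / 16) C (by omega) hδ (by norm_num) (by linarith) hC
  obtain ⟨X₂, hX₂⟩ := eventually_size y₀ δ hδ
  refine ⟨max X₁ X₂, ?_⟩
  intro Z hZ Y h i l e e' hinj hh hWh hY hYZ hl he he' hee heZ heZ'
  obtain ⟨hZ1, hlZ, hyz, hsz⟩ := hX₂ Z ((le_max_right _ _).trans hZ)
  have hZ0 : 0 < Z := by linarith
  have hb4 : (0 : ℝ) ≤ b := Nat.cast_nonneg b
  have hδ4 : δ ≤ 1 / 4 := by nlinarith
  have hz4 : Z ^ δ ≤ Z ^ (1 / 4 : ℝ) := Real.rpow_le_rpow_of_exponent_le hZ1.le hδ4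
  have hY4 : Y ≤ Z ^ (1 / 4 : ℝ) :=
    hYZ.trans (Real.rpow_le_rpow_of_exponent_le hZ1.le (by norm_num))
  set D : ℝ := Z ^ (1 / 16 : ℝ) with hDdef
  have hD1 : 1 < D := Real.one_lt_rpow hZ1 (by norm_num)
  have hD4 : D ≤ Z ^ (1 / 4 : ℝ) := Real.rpow_le_rpow_of_exponent_le hZ1.le (by norm_num)
  have hlD : Real.log D = 1 / 16 * Real.log Z := Real.log_rpow hZ0 _
  have hz1 : 1 ≤ Z ^ δ := Real.one_le_rpow hZ1.le hδ.le
  have hDY1 : 1 ≤ D * Y := by nlinarith
  obtain ⟨ρ, hρ1, hρb, hρs, hQ0, hQM⟩ := hRH (Z ^ δ) D hz1 hD1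
  have hres : Wt k (Z ^ δ) Y C (res i l) := res_wt i hC hl
  obtain ⟨hW', hQF', hLam'⟩ := hTE k (Z ^ δ) Y D C ρ (res i l) hY hD1.le hρb hρs hC hres
  obtain ⟨hW'', hQF'', hLam''⟩ := hTE (k + 1) (Z ^ δ) (D * Y) D C ρ (ten ρ (res i l)) hDY1
    hD1.le hρb hρs hC hW'
  set h₁ : Fin (k + 1) → ℕ := Fin.cons e h with hh₁
  set h₂ : Fin (k + 1 + 1) → ℕ := Fin.cons e' h₁ with hh₂
  have he1 : ∀ j, e' ≠ h₁ j := by
    intro j
    refine Fin.cases ?_ ?_ j
    · rw [hh₁, Fin.cons_zero]; exact hee.symm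
    · intro j'
      rw [hh₁, Fin.cons_succ]; exact he' j'
  have hinj₁ : Function.Injective h₁ := by
    rw [hh₁, Fin.cons_injective_iff]
    refine ⟨?_, hinj⟩
    rintro ⟨j, hj⟩
    exact he j hj.symm
  have hinj₂ : Function.Injective h₂ := by
    rw [hh₂, Fin.cons_injective_iff]
    refine ⟨?_, hinj₁⟩
    rintro ⟨j, hj⟩
    exact he1 j hj.symm
  have hh' : ∀ j, ((h₁ j : ℕ) : ℝ) ≤ 20 * Real.log Z := by
    intro j
    refine Fin.cases ?_ ?_ j
    · rw [hh₁, Fin.cons_zero]; exact heZ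
    · intro j'
      rw [hh₁, Fin.cons_succ]
      have := hh j'
      linarith
  have hh'' : ∀ j, ((h₂ j : ℕ) : ℝ) ≤ 20 * Real.log Z := by
    intro j
    refine Fin.cases ?_ ?_ j
    · rw [hh₂, Fin.cons_zero]; exact heZ'
    · intro j'
      rw [hh₂, Fin.cons_succ]
      exact hh' j'
  have hi₂ : h₂ i.succ.succ = h i := by
    rw [hh₂, Fin.cons_succ, hh₁, Fin.cons_succ]
  have hDY : (D * (D * Y)) ^ 2 ≤ Z ^ (1 / 2 - 1 / 16 : ℝ) := by
    have h1 : D * (D * Y) ≤ Z ^ (1 / 16 : ℝ) * (Z ^ (1 / 16 : ℝ) * Z ^ (1 / 32 : ℝ)) := by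
      apply mul_le_mul_of_nonneg_left _ (by positivity)
      exact mul_le_mul_of_nonneg_left hYZ (by positivity)
    have h2 : Z ^ (1 / 16 : ℝ) * (Z ^ (1 / 16 : ℝ) * Z ^ (1 / 32 : ℝ)) = Z ^ (5 / 32 : ℝ) := by
      rw [← Real.rpow_add hZ0, ← Real.rpow_add hZ0]; congr 1; norm_num
    rw [h2] at h1
    calc (D * (D * Y)) ^ 2 ≤ (Z ^ (5 / 32 : ℝ)) ^ 2 := by
          apply pow_le_pow_left₀ (by positivity) h1
      _ = Z ^ (5 / 16 : ℝ) := by
          rw [← Real.rpow_natCast, ← Real.rpow_mul hZ0.le]; congr 1; norm_num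
      _ ≤ Z ^ (1 / 2 - 1 / 16 : ℝ) := Real.rpow_le_rpow_of_exponent_le hZ1.le (by norm_num)
  have hPU2 := (hX₁ Z ((le_max_left _ _).trans hZ) (D * (D * Y)) h₂
    i.succ.succ (ten ρ (ten ρ (res i l))) hinj₂ hh'' (by rw [hi₂]; exact hWh i) (by nlinarith)
    hDY hW''
    (by
      intro d hd
      unfold ten at hd
      unfold res at hd
      by_contra hne
      apply hd
      rw [if_neg hne, mul_zero, mul_zero])).2
  rw [hi₂] at hPU2
  -- the facts for the `n` that matter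
  have key : ∀ n ∈ Omr Z y₀ (Z ^ δ) h,
      wp Z (n + h i) * (ip (n + e) * ip (n + e')) * Lam (Z ^ δ) Y l h n ^ 2 ≠ 0 →
      ((1 + e).Coprime (primorial y₀) ∧ (1 + e').Coprime (primorial y₀)) ∧
      n ∈ Omr Z y₀ (Z ^ δ) h₂ ∧
      wp Z (n + h i) * (ip (n + e) * ip (n + e')) * Lam (Z ^ δ) Y l h n ^ 2 =
        1 / Real.log Z * (wx Z (n + h i) *
          Lam (Z ^ δ) (D * (D * Y)) (ten ρ (ten ρ (res i l))) h₂ n ^ 2) := by
    intro n hn hne
    have h1 : wp Z (n + h i) ≠ 0 := fun h0 => hne (by rw [h0]; ring)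
    have h2 : ip (n + e) ≠ 0 := fun h0 => hne (by rw [h0]; ring)
    have h3 : ip (n + e') ≠ 0 := fun h0 => hne (by rw [h0]; ring)
    have hp1 : (n + h i).Prime := by
      by_contra hc
      apply h1
      unfold wp
      rw [if_neg hc]
    have hp2 : (n + e).Prime := by
      by_contra hc
      apply h2
      unfold ip
      rw [if_neg hc]
    have hp3 : (n + e').Prime := by
      by_contra hc
      apply h3
      unfold ip
      rw [if_neg hc]
    have hwx : wx Z (n + h i) ≠ 0 := by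
      intro hc
      apply h1
      unfold wp
      rw [if_pos hp1, hc, zero_div]
    have hbig := wx_ne hZ0 hwx
    push_cast at hbig
    have hhi := hh i
    have hnn : (y₀ : ℝ) + Z ^ (1 / 4 : ℝ) < n := by linarith
    have hr4 : 0 ≤ Z ^ (1 / 4 : ℝ) := Real.rpow_nonneg hZ0.le _
    have hyn : y₀ < n := by
      have : (y₀ : ℝ) < n := by linarith
      exact_mod_cast this
    have hy0 : (0 : ℝ) ≤ y₀ := Nat.cast_nonneg _
    have he0 : (0 : ℝ) ≤ e := Nat.cast_nonneg _
    have he0' : (0 : ℝ) ≤ e' := Nat.cast_nonneg _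
    have hhi0 : (0 : ℝ) ≤ h i := Nat.cast_nonneg _
    have hnO : n ∈ Om Z y₀ := by
      unfold Omr at hn
      exact (mem_filter.1 hn).1
    refine ⟨⟨cop_of_prime hnO hp2 hyn, cop_of_prime hnO hp3 hyn⟩,
      omr_cons (omr_cons hn hp2 (by push_cast; linarith)) hp3 (by push_cast; linarith), ?_⟩
    rw [hLam'' h₁ e' n, hLam' h e n, lam1_prime hD1.le hp2 (by push_cast; linarith) hρ1,
      lam1_prime hD1.le hp3 (by push_cast; linarith) hρ1,
      lam_res hl h i n hp1 (by push_cast; linarith)]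
    unfold wp ip
    rw [if_pos hp1, if_pos hp2, if_pos hp3]
    ring
  have hZA : 0 ≤ Z / Real.log Z ^ A := by positivity
  split_ifs with hcop
  · -- the sum over the new set
    have hS : S4 Z y₀ (Z ^ δ) Y l h i e e' ≤ 1 / Real.log Z *
        ∑ n ∈ Omr Z y₀ (Z ^ δ) h₂, wx Z (n + h i) *
          Lam (Z ^ δ) (D * (D * Y)) (ten ρ (ten ρ (res i l))) h₂ n ^ 2 := by
      unfold S4
      rw [Finset.mul_sum]
      calc ∑ n ∈ Omr Z y₀ (Z ^ δ) h, wp Z (n + h i) * (ip (n + e) * ip (n + e')) *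
              Lam (Z ^ δ) Y l h n ^ 2
          ≤ ∑ n ∈ Omr Z y₀ (Z ^ δ) h,
              (if n ∈ Omr Z y₀ (Z ^ δ) h₂ then
                1 / Real.log Z * (wx Z (n + h i) * Lam (Z ^ δ) (D * (D * Y))
                  (ten ρ (ten ρ (res i l))) h₂ n ^ 2) else 0) := by
            apply Finset.sum_le_sum
            intro n hn
            by_cases hne : wp Z (n + h i) * (ip (n + e) * ip (n + e')) *
              Lam (Z ^ δ) Y l h n ^ 2 = 0
            · rw [hne]
              split_ifs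
              · have := wx_nonneg Z (n + h i)
                positivity
              · exact le_rfl
            · obtain ⟨-, h2, h3⟩ := key n hn hne
              rw [if_pos h2, h3]
        _ = ∑ n ∈ (Omr Z y₀ (Z ^ δ) h).filter
              (fun n => n ∈ Omr Z y₀ (Z ^ δ) h₂),
                1 / Real.log Z * (wx Z (n + h i) * Lam (Z ^ δ) (D * (D * Y))
                  (ten ρ (ten ρ (res i l))) h₂ n ^ 2) := by
            rw [Finset.sum_filter]
        _ ≤ _ := by
            apply Finset.sum_le_sum_of_subset_of_nonneg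
            · intro n hn
              exact (mem_filter.1 hn).2
            · intro n _ _
              have := wx_nonneg Z (n + h i)
              positivity
    have hnew1 := newpt hTE hVR hVV hDG hk (by omega) hyz hY hD1 hC hρb hρs hQ0 hQM hres he
    have hnew2 := newpt hTE hVR hVV hDG (show 1 ≤ k + 1 by omega) (by omega) hyz hDY1 hD1 hC
      hρb hρs hQ0 hQM hW' he1
    rw [← hh₁] at hnew1
    rw [← hh₂] at hnew2
    have hWX := WX_nonneg Z
    have hφ : (0 : ℝ) < (primorial y₀).totient := by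
      exact_mod_cast Nat.totient_pos.2 (primorial_pos y₀)
    have hlZ0 : 0 < Real.log Z := by linarith
    have hlD0 : 0 < Real.log D := Real.log_pos hD1
    have hR1 := rp_nonneg y₀ e h
    have hR2 := rp_nonneg y₀ e' h₁
    have hnew : V2 y₀ (Z ^ δ) h₂ * QF (Z ^ δ) (D * (D * Y)) (ten ρ (ten ρ (res i l))) ≤
        V2 y₀ (Z ^ δ) h * QF (Z ^ δ) Y (res i l) *
          ((primorial y₀ / (primorial y₀).totient / Real.log D) ^ 2 *
            (Rp y₀ e h * Rp y₀ e' h₁)) := by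
      calc V2 y₀ (Z ^ δ) h₂ * QF (Z ^ δ) (D * (D * Y)) (ten ρ (ten ρ (res i l)))
          ≤ V2 y₀ (Z ^ δ) h₁ * QF (Z ^ δ) (D * Y) (ten ρ (res i l)) *
            ((primorial y₀ / (primorial y₀).totient / Real.log D) * Rp y₀ e' h₁) := hnew2
        _ ≤ (V2 y₀ (Z ^ δ) h * QF (Z ^ δ) Y (res i l) *
            ((primorial y₀ / (primorial y₀).totient / Real.log D) * Rp y₀ e h)) *
            ((primorial y₀ / (primorial y₀).totient / Real.log D) * Rp y₀ e' h₁) :=
            mul_le_mul_of_nonneg_right hnew1 (by positivity)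
        _ = _ := by ring
    calc S4 Z y₀ (Z ^ δ) Y l h i e e' ≤ 1 / Real.log Z *
        ∑ n ∈ Omr Z y₀ (Z ^ δ) h₂, wx Z (n + h i) *
          Lam (Z ^ δ) (D * (D * Y)) (ten ρ (ten ρ (res i l))) h₂ n ^ 2 := hS
      _ ≤ 1 / Real.log Z * ((1 + η) * (WX Z / (primorial y₀).totient *
          V2 y₀ (Z ^ δ) h₂ *
            QF (Z ^ δ) (D * (D * Y)) (ten ρ (ten ρ (res i l)))) + Z / Real.log Z ^ A) :=
          mul_le_mul_of_nonneg_left hPU2 (by positivity)
      _ = (1 + η) * (WX Z / ((primorial y₀).totient * Real.log Z)) *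
          (V2 y₀ (Z ^ δ) h₂ *
            QF (Z ^ δ) (D * (D * Y)) (ten ρ (ten ρ (res i l)))) +
              1 / Real.log Z * (Z / Real.log Z ^ A) := by
          field_simp
      _ ≤ (1 + η) * (WX Z / ((primorial y₀).totient * Real.log Z)) *
          (V2 y₀ (Z ^ δ) h * QF (Z ^ δ) Y (res i l) *
            ((primorial y₀ / (primorial y₀).totient / Real.log D) ^ 2 *
              (Rp y₀ e h * Rp y₀ e' h₁))) +
              1 * (Z / Real.log Z ^ A) := by
          apply add_le_add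
          · exact mul_le_mul_of_nonneg_left hnew (by positivity)
          · apply mul_le_mul_of_nonneg_right _ hZA
            rw [div_le_one hlZ0]
            exact hlZ
      _ = _ := by
          rw [hlD]
          unfold MM
          ring
  · -- the sum is zero
    have hS : S4 Z y₀ (Z ^ δ) Y l h i e e' = 0 := by
      unfold S4
      apply Finset.sum_eq_zero
      intro n hn
      by_contra hne
      exact hcop (key n hn hne).1
    rw [hS]
    linarith

end Pool.Agent.H92.MTP
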