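import Pool.Agent.H31.MP.Basic

/-!
Board mtp_modules: common lemmas for the rows W3, W4, PE.
-/

set_option autoImplicit false

open Finset Real ArithmeticFunction
open scoped Nat

namespace Pool.Agent.H92.MTP

open Pool.Agent.H31.MP
open Pool.Agent.H30.BV (NX wx WX)

lemma wx_nonneg (X : ℝ) (n : ℕ) : 0 ≤ wx X n :=
  mul_nonneg ArithmeticFunction.vonMangoldt_nonneg (Pool.Agent.H27.LS.hat_nonneg _)

lemma WX_nonneg (X : ℝ) : 0 ≤ WX X := Finset.sum_nonneg fun n _ => wx_nonneg X n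

lemma wx_ne {X : ℝ} {n : ℕ} (hX : 0 < X) (h : wx X n ≠ 0) : X < 3 * n := by
  by_contra hc
  push Not at hc
  rcases Nat.eq_zero_or_pos n with rfl | hn
  · simp [wx] at h
  · refine h ?_
    unfold wx
    rw [Pool.Agent.H27.LS.hat_log_eq_zero_of_le hX (by exact_mod_cast hn) hc, mul_zero]

lemma mem_RS {z Y : ℝ} {a : ℕ} (h : a ∈ RS z Y) : 1 ≤ a ∧ (a : ℝ) ≤ Y ∧ Rgh z a := by
  classical
  unfold RS at h
  rw [mem_filter, mem_Icc] at h
  refine ⟨h.1.1, ?_, h.2⟩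
  have h1 : 1 ≤ ⌊Y⌋₊ := h.1.1.trans h.1.2
  have h2 : 0 ≤ Y := by
    by_contra hc
    rw [Nat.floor_of_nonpos (by linarith)] at h1
    omega
  exact (Nat.cast_le.2 h.1.2).trans (Nat.floor_le h2)

lemma one_mem_RS {z Y : ℝ} (h : 1 ≤ Y) : 1 ∈ RS z Y := by
  classical
  unfold RS
  rw [mem_filter, mem_Icc]
  refine ⟨⟨le_rfl, Nat.le_floor (by simpa using h)⟩, squarefree_one, fun p hp hd => ?_⟩
  exact absurd (Nat.dvd_one.1 hd) hp.one_lt.ne'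

lemma mem_Bx {K : ℕ} {z Y : ℝ} {d : Fin K → ℕ} : d ∈ Bx K z Y ↔ ∀ i, d i ∈ RS z Y := by
  unfold Bx
  exact Fintype.mem_piFinset

lemma lam1_prime {z D : ℝ} {ρ : ℕ → ℝ} {m : ℕ} (hD : 1 ≤ D) (hm : m.Prime) (hDm : D < m)
    (h1 : ρ 1 = 1) : Lam1 z D ρ m = 1 := by
  unfold Lam1
  rw [Finset.sum_eq_single 1]
  · simp [h1]
  · intro u hu hu1
    have hn : ¬ u ∣ m := by
      intro hd
      rcases (Nat.dvd_prime hm).1 hd with h | h
      · exact hu1 h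
      · have := (mem_RS hu).2.1
        rw [h] at this
        linarith
    simp [hn]
  · intro h
    exact absurd (one_mem_RS hD) h

lemma lam_res {k : ℕ} {z Y C : ℝ} {l : (Fin k → ℕ) → ℝ} (hl : Wt k z Y C l) (h : Fin k → ℕ)
    (i : Fin k) (n : ℕ) (hp : (n + h i).Prime) (hY : Y < ((n + h i : ℕ) : ℝ)) :
    Lam z Y (res i l) h n = Lam z Y l h n := by
  classical
  unfold Lam
  apply Finset.sum_congr rfl
  intro d hd
  split_ifs with hdv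
  · unfold res
    split_ifs with h1
    · rfl
    · by_contra hne
      have hne' : l d ≠ 0 := fun h => hne h.symm
      obtain ⟨hdB, hdY⟩ := hl.supp d hne'
      rcases (Nat.dvd_prime hp).1 (hdv i) with h2 | h2
      · exact h1 h2
      · have hpos : 0 < ∏ j, d j := Finset.prod_pos fun j _ => (mem_RS (mem_Bx.1 hdB j)).1
        have h3 : d i ≤ ∏ j, d j := Nat.le_of_dvd hpos (Finset.dvd_prod_of_mem _ (mem_univ i))
        have h4 : ((d i : ℕ) : ℝ) ≤ ((∏ j, d j : ℕ) : ℝ) := by exact_mod_cast h3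
        rw [h2] at h4
        linarith
  · rfl

lemma dvd_primorial {q n : ℕ} (hq : q.Prime) (h : q ∣ primorial n) : q ≤ n := by
  unfold primorial at h
  obtain ⟨p, hp, hd⟩ := (Prime.dvd_finsetProd_iff hq.prime _).1 h
  rw [mem_filter, mem_range] at hp
  have := (Nat.prime_dvd_prime_iff_eq hq hp.2).1 hd
  omega

lemma cop_of_prime {Z : ℝ} {y₀ n e : ℕ} (hn : n ∈ Om Z y₀) (hp : (n + e).Prime) (hy : y₀ < n) :
    (1 + e).Coprime (primorial y₀) := by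
  by_contra hc
  obtain ⟨q, hq, hq1, hq2⟩ := Nat.Prime.not_coprime_iff_dvd.1 hc
  have hqy : q ≤ y₀ := dvd_primorial hq hq2
  unfold Om at hn
  have h1 : n ≡ 1 [MOD q] := (mem_filter.1 hn).2.of_dvd hq2
  have h2 : n + e ≡ 1 + e [MOD q] := h1.add_right e
  have h3 : q ∣ n + e := (h2.dvd_iff dvd_rfl).2 hq1
  rcases (Nat.dvd_prime hp).1 h3 with h | h
  · exact hq.one_lt.ne' h
  · omega

lemma mem_Pz {y₀ : ℕ} {z : ℝ} {p : ℕ} (h : p ∈ Pz y₀ z) : p.Prime ∧ y₀ < p ∧ (p : ℝ) ≤ z := by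
  unfold Pz at h
  rw [mem_filter, mem_Icc] at h
  refine ⟨h.2.1, h.2.2, ?_⟩
  have h1 : 1 ≤ ⌊z⌋₊ := h.1.1.trans h.1.2
  have h2 : 0 ≤ z := by
    by_contra hc
    rw [Nat.floor_of_nonpos (by linarith)] at h1
    omega
  exact (Nat.cast_le.2 h.1.2).trans (Nat.floor_le h2)

lemma omr_cons {K y₀ n e : ℕ} {Z z : ℝ} {h : Fin K → ℕ} (hn : n ∈ Omr Z y₀ z h)
    (hp : (n + e).Prime) (hz : z < ((n + e : ℕ) : ℝ)) :
    n ∈ Omr Z y₀ z (Fin.cons e h : Fin (K + 1) → ℕ) := by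
  classical
  unfold Omr at hn ⊢
  rw [mem_filter] at hn ⊢
  refine ⟨hn.1, fun p hpP hd => ?_⟩
  obtain ⟨j, hj⟩ := hd
  obtain ⟨hpp, -, hpz⟩ := mem_Pz hpP
  revert hj
  refine Fin.cases ?_ ?_ j
  · intro hj
    rw [Fin.cons_zero] at hj
    rcases (Nat.dvd_prime hp).1 hj with h | h
    · exact hpp.one_lt.ne' h
    · rw [h] at hpz
      linarith
  · intro i hi
    rw [Fin.cons_succ] at hi
    exact hn.2 p hpP ⟨i, hi⟩

lemma rp_nonneg {K : ℕ} (y₀ e : ℕ) (h : Fin K → ℕ) : 0 ≤ Rp y₀ e h := by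
  unfold Rp
  apply Finset.prod_nonneg
  intro p hp
  rw [mem_filter] at hp
  have hp1 : 1 ≤ (p : ℝ) := by exact_mod_cast (Nat.prime_of_mem_primeFactors hp.1).one_lt.le
  have : 1 / (p : ℝ) ≤ 1 := by
    rw [div_le_one (by linarith)]
    exact hp1
  exact inv_nonneg.2 (by linarith)

lemma QF_nonneg (hDG : T_DG) {K : ℕ} (z Y : ℝ) (l : (Fin K → ℕ) → ℝ) : 0 ≤ QF z Y l := by
  classical
  rw [hDG K z Y l]
  exact Finset.sum_nonneg fun r _ => mul_nonneg (Finset.prod_nonneg fun i _ => Nat.cast_nonneg _)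
    (sq_nonneg _)

/-- the new point costs a factor `(W / φ(W)) / log D` -/
lemma newpt (hTE : T_TE) (hVR : T_VR) (hVV : T_VV) (hDG : T_DG) {K y₀ : ℕ} {z Y D C : ℝ}
    {ρ : ℕ → ℝ} {m : (Fin K → ℕ) → ℝ} {h : Fin K → ℕ} {e : ℕ} (hK : 1 ≤ K)
    (hy : 2 * K + 2 ≤ y₀) (hyz : (y₀ : ℝ) ≤ z) (hY : 1 ≤ Y) (hD : 1 < D) (hC : 0 ≤ C)
    (hρ1 : ∀ u, |ρ u| ≤ 1) (hρs : ∀ u, ρ u ≠ 0 → u ∈ RS z D) (hQ : 0 ≤ QF1 z D ρ)
    (hM : Me z * QF1 z D ρ * Real.log D ≤ 1) (hm : Wt K z Y C m) (he : ∀ i, e ≠ h i) :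
    V2 y₀ z (Fin.cons e h : Fin (K + 1) → ℕ) * QF z (D * Y) (ten ρ m) ≤
      V2 y₀ z h * QF z Y m * ((primorial y₀ / (primorial y₀).totient / Real.log D) *
        Rp y₀ e h) := by
  obtain ⟨-, hQF, -⟩ := hTE K z Y D C ρ m hY hD.le hρ1 hρs hC hm
  obtain ⟨h0, h1, h2⟩ := hVR K y₀ z h e hK hy he
  obtain ⟨h3, -⟩ := hVV K y₀ z h hK hy hyz
  have hQm := QF_nonneg hDG z Y m
  have hR := rp_nonneg y₀ e h
  have hlD : 0 < Real.log D := Real.log_pos hD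
  have hW : (0 : ℝ) < primorial y₀ := by exact_mod_cast primorial_pos y₀
  have hφ : (0 : ℝ) < (primorial y₀).totient := by
    exact_mod_cast Nat.totient_pos.2 (primorial_pos y₀)
  set P := ∏ p ∈ Pz y₀ z, (1 - 1 / (p : ℝ)) with hPdef
  have hP : P = Me z * (primorial y₀ / (primorial y₀).totient) := by
    rw [← h3]
    field_simp
  have hPQ : P * QF1 z D ρ ≤ primorial y₀ / (primorial y₀).totient / Real.log D := by
    rw [le_div_iff₀ hlD, hP]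
    calc Me z * (primorial y₀ / (primorial y₀).totient) * QF1 z D ρ * Real.log D
        = (Me z * QF1 z D ρ * Real.log D) * (primorial y₀ / (primorial y₀).totient) := by ring
      _ ≤ 1 * (primorial y₀ / (primorial y₀).totient) :=
          mul_le_mul_of_nonneg_right hM (by positivity)
      _ = _ := one_mul _
  rw [hQF]
  calc V2 y₀ z (Fin.cons e h : Fin (K + 1) → ℕ) * (QF1 z D ρ * QF z Y m)
      ≤ (V2 y₀ z h * P * Rp y₀ e h) * (QF1 z D ρ * QF z Y m) :=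
        mul_le_mul_of_nonneg_right h2 (mul_nonneg hQ hQm)
    _ = (P * QF1 z D ρ) * (V2 y₀ z h * QF z Y m * Rp y₀ e h) := by ring
    _ ≤ (primorial y₀ / (primorial y₀).totient / Real.log D) *
        (V2 y₀ z h * QF z Y m * Rp y₀ e h) :=
        mul_le_mul_of_nonneg_right hPQ (mul_nonneg (mul_nonneg h1.le hQm) hR)
    _ = _ := by ring

lemma res_wt {K : ℕ} {z Y C : ℝ} {l : (Fin K → ℕ) → ℝ} (i : Fin K) (hC : 0 ≤ C)
    (hl : Wt K z Y C l) : Wt K z Y C (res i l) := by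
  constructor
  · intro d hd
    apply hl.supp d
    intro h0
    apply hd
    unfold res
    split_ifs <;> simp [h0]
  · intro d
    unfold res
    split_ifs
    · exact hl.bd d
    · simpa using hC

lemma eventually_size (y₀ : ℕ) (δ : ℝ) (hδ : 0 < δ) : ∃ X₀ : ℝ, ∀ Z : ℝ, X₀ ≤ Z →
    1 < Z ∧ 1 ≤ Real.log Z ∧ (y₀ : ℝ) ≤ Z ^ δ ∧
      (y₀ : ℝ) + Z ^ (1 / 4 : ℝ) + 20 * Real.log Z < Z / 3 := by
  have h1 : ∀ᶠ Z : ℝ in Filter.atTop, 1 < Z := Filter.eventually_gt_atTop 1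
  have h2 : ∀ᶠ Z : ℝ in Filter.atTop, 1 ≤ Real.log Z :=
    Real.tendsto_log_atTop.eventually_ge_atTop 1
  have h3 : ∀ᶠ Z : ℝ in Filter.atTop, (y₀ : ℝ) ≤ Z ^ δ :=
    (tendsto_rpow_atTop hδ).eventually_ge_atTop _
  have h4 : ∀ᶠ Z : ℝ in Filter.atTop, ‖Real.log Z‖ ≤ 1 / 400 * ‖Z‖ := by
    have := Real.isLittleO_log_id_atTop.bound (show (0 : ℝ) < 1 / 400 by norm_num)
    simpa using this
  have h5 : ∀ᶠ Z : ℝ in Filter.atTop, (400 : ℝ) ≤ Z ^ (3 / 4 : ℝ) :=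
    (tendsto_rpow_atTop (by norm_num)).eventually_ge_atTop _
  have h6 : ∀ᶠ Z : ℝ in Filter.atTop, 100 * (y₀ : ℝ) + 100 ≤ Z := Filter.eventually_ge_atTop _
  obtain ⟨X₀, hX⟩ := Filter.eventually_atTop.1 (h1.and (h2.and (h3.and (h4.and (h5.and h6)))))
  refine ⟨X₀, fun Z hZ => ?_⟩
  obtain ⟨a1, a2, a3, a4, a5, a6⟩ := hX Z hZ
  refine ⟨a1, a2, a3, ?_⟩
  have hZ0 : 0 < Z := by linarith
  rw [Real.norm_of_nonneg (by linarith), Real.norm_of_nonneg hZ0.le] at a4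
  have a7 : Z = Z ^ (1 / 4 : ℝ) * Z ^ (3 / 4 : ℝ) := by
    rw [← Real.rpow_add hZ0]
    norm_num
  have a8 : 0 ≤ Z ^ (1 / 4 : ℝ) := Real.rpow_nonneg hZ0.le _
  have a9 : 400 * Z ^ (1 / 4 : ℝ) ≤ Z := by nlinarith
  linarith

end Pool.Agent.H92.MTP
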