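import Pool.Agent.H92.MTP.Com
import Pool.Agent.H78.MTP.IE

/-!
Board mtp_modules, row PE: the error term of the sieve for the primes.
-/

set_option autoImplicit false

open Finset Real ArithmeticFunction
open scoped Nat

namespace Pool.Agent.H92.MTP

open Pool.Agent.H31.MP
open Pool.Agent.H30.BV (NX wx WX Sf As Er Sad qj PZ lv nl)
open Pool.Agent.H78.MTP (logpow nu_le)

lemma nu_pos {K : ℕ} (hK : 1 ≤ K) (h : Fin K → ℕ) {p : ℕ} (hp : 1 ≤ p) : 1 ≤ nu h p := by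
  classical
  unfold nu
  rw [Nat.one_le_iff_ne_zero, ← Nat.pos_iff_ne_zero, card_pos]
  refine ⟨((p - 1) * h ⟨0, hK⟩) % p, mem_filter.2 ⟨mem_range.2 (Nat.mod_lt _ hp), ⟨0, hK⟩, ?_⟩⟩
  have h1 : ((p - 1) * h ⟨0, hK⟩) % p + h ⟨0, hK⟩ ≡ (p - 1) * h ⟨0, hK⟩ + h ⟨0, hK⟩ [MOD p] :=
    (Nat.mod_modEq _ _).add_right _
  have h2 : (p - 1) * h ⟨0, hK⟩ + h ⟨0, hK⟩ = p * h ⟨0, hK⟩ := by
    obtain ⟨q, rfl⟩ : ∃ q, p = q + 1 := ⟨p - 1, by omega⟩
    simp only [Nat.add_sub_cancel]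
    ring
  rw [h2] at h1
  exact (Nat.modEq_zero_iff_dvd).1 (h1.trans ((Nat.modEq_zero_iff_dvd).2 (dvd_mul_right _ _)))

lemma EQ_nonneg (X : ℝ) (q : ℕ) : 0 ≤ EQ X q := Real.iSup_nonneg fun _ => abs_nonneg _

theorem pe_key (hPRI : T_PRI) (hLE : T_LE) (hNC : T_NC) (K y₀ : ℕ) (z X Y B : ℝ)
    (h : Fin K → ℕ) (i₀ : Fin K) (l : (Fin K → ℕ) → ℝ) (hX : 100 ≤ X)
    (hh : Function.Injective h) (hhz : ∀ i, (h i : ℝ) ≤ z) (hyz : (y₀ : ℝ) ≤ z)
    (hW0 : primorial y₀ ∣ h i₀) (hhX : (h i₀ : ℝ) ≤ X / 20) (hl0 : ∀ d, l d ≠ 0 → d i₀ = 1)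
    (hB : |∑ d ∈ Bx K z Y, ∑ e ∈ Bx K z Y, (open Classical in
      if Pco d e then l d * l e / ∏ i, ((Nat.lcm (d i) (e i)).totient : ℝ) else 0) -
        QF z Y l| ≤ B)
    (s : Finset ℕ) (hs : ∀ p ∈ s, p.Prime ∧ y₀ < p ∧ (p : ℝ) ≤ z)
    (hg : ∀ p ∈ s, 0 ≤ ((nu h p : ℝ) - 1) / ((p : ℝ) - 1)) :
    |As (Om X y₀) (fun n => wx X (n + h i₀) * Lam z Y l h n ^ 2) (dvh h) s -
      (WX X / (primorial y₀).totient * QF z Y l) *
        ∏ p ∈ s, ((nu h p : ℝ) - 1) / ((p : ℝ) - 1)| ≤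
    (∑ d ∈ Bx K z Y, ∑ e ∈ Bx K z Y, (open Classical in
      if Pco d e then |l d| * |l e| * (((K : ℝ) + 1) ^ s.card *
        (EQ X (primorial y₀ * (∏ p ∈ s, p) * ∏ i, Nat.lcm (d i) (e i)) + 2 * Real.log X))
        else 0)) +
      WX X * B * ∏ p ∈ s, ((nu h p : ℝ) - 1) / ((p : ℝ) - 1) := by
  classical
  set W := primorial y₀ with hW
  have hW1 : 1 ≤ W := primorial_pos y₀
  have hφ1 : (1 : ℝ) ≤ W.totient := by exact_mod_cast Nat.totient_pos.2 hW1
  set N := NX X with hN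
  set Gs : ℝ := ∏ p ∈ s, ((nu h p : ℝ) - 1) / ((p : ℝ) - 1) with hGs
  have hG0 : 0 ≤ Gs := Finset.prod_nonneg hg
  have hWX := WX_nonneg X
  have hAs : As (Om X y₀) (fun n => wx X (n + h i₀) * Lam z Y l h n ^ 2) (dvh h) s =
      ∑ d ∈ Bx K z Y, ∑ e ∈ Bx K z Y, l d * l e *
        (∑ n ∈ (Icc 1 N).filter (fun n => n ≡ 1 [MOD W] ∧ (∀ p ∈ s, dvh h p n) ∧
          ∀ i, Nat.lcm (d i) (e i) ∣ n + h i), wx X (n + h i₀)) := by
    have h1 := hLE K z Y l h (Om X y₀) (fun n => wx X (n + h i₀)) s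
    refine h1.trans ?_
    refine Finset.sum_congr rfl fun d _ => Finset.sum_congr rfl fun e _ => ?_
    congr 1
    unfold Om
    rw [Finset.filter_filter]
  have hterm : ∀ d ∈ Bx K z Y, ∀ e ∈ Bx K z Y,
      |l d * l e * (∑ n ∈ (Icc 1 N).filter (fun n => n ≡ 1 [MOD W] ∧ (∀ p ∈ s, dvh h p n) ∧
          ∀ i, Nat.lcm (d i) (e i) ∣ n + h i), wx X (n + h i₀)) -
        (WX X / W.totient * Gs) * (if Pco d e then
          l d * l e / ∏ i, ((Nat.lcm (d i) (e i)).totient : ℝ) else 0)| ≤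
      if Pco d e then |l d| * |l e| * (((K : ℝ) + 1) ^ s.card *
        (EQ X (W * (∏ p ∈ s, p) * ∏ i, Nat.lcm (d i) (e i)) + 2 * Real.log X)) else 0 := by
    intro d hd e he
    obtain ⟨hc1, hc2, hc3⟩ := hNC K z Y h d e hh hhz hd he
    by_cases hP : Pco d e
    · rw [if_pos hP, if_pos hP]
      by_cases hde : l d * l e = 0
      · rw [hde]
        have hE := EQ_nonneg X (W * (∏ p ∈ s, p) * ∏ i, Nat.lcm (d i) (e i))
        have hlog : 0 ≤ Real.log X := Real.log_nonneg (by linarith)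
        simp only [zero_mul, zero_div, mul_zero, sub_zero, abs_zero]
        positivity
      have hld : l d ≠ 0 := fun h0 => hde (by rw [h0, zero_mul])
      have hle : l e ≠ 0 := fun h0 => hde (by rw [h0, mul_zero])
      have h1 := hPRI K h i₀ W X s (fun i => Nat.lcm (d i) (e i)) hX hW1
        (fun p hp => ⟨(hs p hp).1, fun hd' => by
          have := dvd_primorial (hs p hp).1 hd'
          have := (hs p hp).2.1
          omega⟩)
        (fun i => ⟨(hc3 i).1, by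
          refine Nat.Coprime.symm (Nat.coprime_of_dvd fun q hq hqW hqm => ?_)
          have h2 : (q : ℝ) ≤ y₀ := by exact_mod_cast dvd_primorial hq hqW
          have h3 := (hc3 i).2.2 q hq hqm
          linarith, fun p hp hpm => by
          have h3 := (hc3 i).2.2 p (hs p hp).1 hpm
          linarith [(hs p hp).2.2]⟩)
        (fun i j hij => hP i j hij)
        (by
          show Nat.lcm (d i₀) (e i₀) = 1
          rw [hl0 d hld, hl0 e hle]
          rfl)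
        hW0
        (fun j hj => by
          have := hc1 j i₀ hj
          rw [← Int.natAbs_neg, neg_sub]
          exact this)
        hhX
      have hm0 : (0 : ℝ) < ∏ i, ((Nat.lcm (d i) (e i)).totient : ℝ) :=
        Finset.prod_pos fun i _ => by
          have := Nat.totient_pos.2 (hc3 i).1
          exact_mod_cast this
      have h4 : l d * l e * (∑ n ∈ (Icc 1 N).filter (fun n => n ≡ 1 [MOD W] ∧
          (∀ p ∈ s, dvh h p n) ∧ ∀ i, Nat.lcm (d i) (e i) ∣ n + h i), wx X (n + h i₀)) -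
          (WX X / W.totient * Gs) * (l d * l e / ∏ i, ((Nat.lcm (d i) (e i)).totient : ℝ)) =
          l d * l e * ((∑ n ∈ (Icc 1 N).filter (fun n => n ≡ 1 [MOD W] ∧
          (∀ p ∈ s, dvh h p n) ∧ ∀ i, Nat.lcm (d i) (e i) ∣ n + h i), wx X (n + h i₀)) -
          WX X / (W.totient * ∏ i, ((Nat.lcm (d i) (e i)).totient : ℝ)) * Gs) := by
        have hW0 : (W.totient : ℝ) ≠ 0 := by linarith
        field_simp
      rw [h4, abs_mul, abs_mul]
      exact mul_le_mul_of_nonneg_left h1 (by positivity)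
    · rw [if_neg hP, if_neg hP, mul_zero, sub_zero]
      have h1 : ((Icc 1 N).filter (fun n => n ≡ 1 [MOD W] ∧ (∀ p ∈ s, dvh h p n) ∧
          ∀ i, Nat.lcm (d i) (e i) ∣ n + h i)) = ∅ := by
        rw [Finset.filter_eq_empty_iff]
        rintro n _ ⟨_, _, h2⟩
        exact hP (hc2 ⟨n, h2⟩)
      rw [h1, Finset.sum_empty, mul_zero, abs_zero]
  have hsplit : As (Om X y₀) (fun n => wx X (n + h i₀) * Lam z Y l h n ^ 2) (dvh h) s -
      (WX X / W.totient * QF z Y l) * Gs =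
      (∑ d ∈ Bx K z Y, ∑ e ∈ Bx K z Y, (l d * l e *
        (∑ n ∈ (Icc 1 N).filter (fun n => n ≡ 1 [MOD W] ∧ (∀ p ∈ s, dvh h p n) ∧
          ∀ i, Nat.lcm (d i) (e i) ∣ n + h i), wx X (n + h i₀)) -
        (WX X / W.totient * Gs) * (if Pco d e then
          l d * l e / ∏ i, ((Nat.lcm (d i) (e i)).totient : ℝ) else 0))) +
      (WX X / W.totient * Gs) * (∑ d ∈ Bx K z Y, ∑ e ∈ Bx K z Y,
        (if Pco d e then l d * l e / ∏ i, ((Nat.lcm (d i) (e i)).totient : ℝ) else 0) -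
          QF z Y l) := by
    rw [hAs]
    simp only [Finset.sum_sub_distrib, ← Finset.mul_sum]
    ring
  rw [hsplit]
  refine (abs_add_le _ _).trans (add_le_add ?_ ?_)
  · refine (Finset.abs_sum_le_sum_abs _ _).trans (Finset.sum_le_sum fun d hd => ?_)
    refine (Finset.abs_sum_le_sum_abs _ _).trans (Finset.sum_le_sum fun e he => ?_)
    exact hterm d hd e he
  · rw [abs_mul, abs_of_nonneg (by positivity : (0 : ℝ) ≤ WX X / W.totient * Gs)]
    have hNW : WX X / W.totient ≤ WX X := div_le_self hWX hφ1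
    have hB0 : 0 ≤ B := (abs_nonneg _).trans hB
    calc WX X / W.totient * Gs * |∑ d ∈ Bx K z Y, ∑ e ∈ Bx K z Y,
        (if Pco d e then l d * l e / ∏ i, ((Nat.lcm (d i) (e i)).totient : ℝ) else 0) -
          QF z Y l|
        ≤ WX X / W.totient * Gs * B := mul_le_mul_of_nonneg_left hB (by positivity)
      _ ≤ WX X * Gs * B := by gcongr
      _ = WX X * B * Gs := by ring

theorem pf_PE (hPRI : T_PRI) (hSQ : T_SQ) (hLE : T_LE) (hNC : T_NC) (hQC : T_QC) (hSD : T_SD)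
    (hBK : T_BK) (hWM : Pool.Agent.H30.BV.T_WM) : T_PE := by
  classical
  intro K b y₀ A δ ε C hK hy₀ hδ hε hδb hC
  obtain ⟨X₀', hBKX⟩ := hBK (ε / 4) (A + 1) (3 * K * (K + 1)) (by positivity)
  obtain ⟨C₂, B₂, hC₂, hS⟩ := hSD K
  obtain ⟨C', hC', hQ⟩ := hQC K δ C hδ hC
  obtain ⟨c₀, X₅, hc₀, hWMX⟩ := hWM
  obtain ⟨X₂, hX₂⟩ := logpow (200 * C' * C₂ * δ ^ B₂) (B₂ + A) δ hδ
  obtain ⟨X₃, hX₃⟩ := logpow 20 1 δ hδ
  obtain ⟨X₇, hX₇⟩ := logpow 400 1 1 one_pos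
  obtain ⟨X₄, hX₄⟩ := Filter.eventually_atTop.1
    ((tendsto_rpow_atTop hδ).eventually_ge_atTop ((y₀ : ℝ) + 3))
  obtain ⟨X₆, hX₆⟩ := Filter.eventually_atTop.1
    ((tendsto_rpow_atTop (show 0 < ε / 4 by positivity)).eventually_ge_atTop
      ((primorial y₀ : ℕ) : ℝ))
  obtain ⟨X₈, hX₈⟩ := Filter.eventually_atTop.1
    (Real.tendsto_log_atTop.eventually_ge_atTop (2 * C ^ 2 + 2))
  have hall : ∀ᶠ X : ℝ in Filter.atTop, X₀' ≤ X ∧ X₂ ≤ X ∧ X₃ ≤ X ∧ X₄ ≤ X ∧ X₅ ≤ X ∧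
      X₆ ≤ X ∧ X₇ ≤ X ∧ X₈ ≤ X ∧ (100 : ℝ) ≤ X := by
    filter_upwards [Filter.eventually_ge_atTop X₀', Filter.eventually_ge_atTop X₂,
      Filter.eventually_ge_atTop X₃, Filter.eventually_ge_atTop X₄,
      Filter.eventually_ge_atTop X₅, Filter.eventually_ge_atTop X₆,
      Filter.eventually_ge_atTop X₇, Filter.eventually_ge_atTop X₈,
      Filter.eventually_ge_atTop (100 : ℝ)] with X a1 a2 a3 a4 a5 a6 a7 a8 a9
    exact ⟨a1, a2, a3, a4, a5, a6, a7, a8, a9⟩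
  obtain ⟨X₀, hX₀⟩ := Filter.eventually_atTop.1 hall
  refine ⟨X₀, ?_⟩
  intro X hX Y h i₀ l hh hhX hWh hY1 hYX hW hl0
  obtain ⟨e1, e2, e3, e4, e5', e6, e7, e8, e5⟩ := hX₀ X hX
  have hX0 : (0 : ℝ) < X := by linarith
  have hX1 : (1 : ℝ) ≤ X := by linarith
  set z := X ^ δ with hz
  have hz1 : (y₀ : ℝ) + 3 ≤ z := hX₄ X e4
  have hz3 : 3 ≤ z := by
    have : (0 : ℝ) ≤ y₀ := Nat.cast_nonneg _
    linarith
  have hlX : 2 * C ^ 2 + 2 ≤ Real.log X := hX₈ X e8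
  have hlX2 : 2 ≤ Real.log X := by nlinarith [sq_nonneg C]
  have hlz : Real.log z = δ * Real.log X := by rw [hz, Real.log_rpow hX0]
  have hhz : ∀ i, (h i : ℝ) ≤ z := fun i => (hhX i).trans (by
    have := hX₃ X e3
    rwa [pow_one] at this)
  have hh20 : (h i₀ : ℝ) ≤ X / 20 := by
    have h1 := hX₇ X e7
    rw [pow_one, Real.rpow_one] at h1
    have h2 := hhX i₀
    linarith
  have hYY : Y ≤ Y ^ 2 := by nlinarith
  have hYX1 : Y ≤ X := (hYY.trans hYX).trans (by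
    calc X ^ (1 / 2 - ε) ≤ X ^ (1 : ℝ) :=
          Real.rpow_le_rpow_of_exponent_le hX1 (by linarith)
      _ = X := Real.rpow_one X)
  have hB := (hQ X Y l (by linarith) hYX1 hW).2
  -- the sieving set
  set P := Pz y₀ z with hP
  have hPm : ∀ p ∈ P, p.Prime ∧ y₀ < p ∧ (p : ℝ) ≤ z := fun p hp => mem_Pz hp
  have hPZ : P ⊆ PZ z 2 := by
    intro p hp
    obtain ⟨h1, h2, h3⟩ := hPm p hp
    unfold PZ
    exact mem_filter.2 ⟨mem_Icc.2 ⟨by omega, Nat.le_floor h3⟩, h1, by omega⟩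
  have hg : ∀ p ∈ P, 0 ≤ ((nu h p : ℝ) - 1) / ((p : ℝ) - 1) ∧
      ((nu h p : ℝ) - 1) / ((p : ℝ) - 1) ≤ K / p := by
    intro p hp
    obtain ⟨hpp, hpy, -⟩ := hPm p hp
    have h1 : (1 : ℝ) < p := by exact_mod_cast hpp.one_lt
    have h2 : (nu h p : ℝ) ≤ K := by exact_mod_cast nu_le h p
    have h3 : (1 : ℝ) ≤ nu h p := by exact_mod_cast nu_pos hK h hpp.one_lt.le
    have h4 : (K : ℝ) ≤ p := by
      have : K ≤ p := by omega
      exact_mod_cast this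
    refine ⟨div_nonneg (by linarith) (by linarith), ?_⟩
    rw [div_le_div_iff₀ (by linarith) (by linarith)]
    nlinarith
  obtain ⟨hS1, hS2, -, -⟩ := hS z P (fun p => ((nu h p : ℝ) - 1) / ((p : ℝ) - 1)) b hz3 hPZ hg
  set Sd := Sad P (lv z) (fun j => b + j) (nl z) with hSd
  have hsP : ∀ s ∈ Sd, ∀ p ∈ s, p ∈ P := by
    intro s hs p hp
    rw [hSd] at hs
    unfold Sad at hs
    exact (mem_powerset.1 (mem_filter.1 hs).1) hp
  unfold Er
  have hkey : ∀ s ∈ Sd, |As (Om X y₀) (fun n => wx X (n + h i₀) * Lam z Y l h n ^ 2) (dvh h) s -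
      (WX X / (primorial y₀).totient * QF z Y l) *
        ∏ p ∈ s, ((nu h p : ℝ) - 1) / ((p : ℝ) - 1)| ≤
    (∑ d ∈ Bx K z Y, ∑ e ∈ Bx K z Y,
      if Pco d e then |l d| * |l e| * (((K : ℝ) + 1) ^ s.card *
        (EQ X (primorial y₀ * (∏ p ∈ s, p) * ∏ i, Nat.lcm (d i) (e i)) + 2 * Real.log X))
        else 0) +
      WX X * (C' * X ^ (-δ)) * ∏ p ∈ s, ((nu h p : ℝ) - 1) / ((p : ℝ) - 1) := fun s hs =>
    pe_key hPRI hLE hNC K y₀ z X Y (C' * X ^ (-δ)) h i₀ l e5 hh hhz (by linarith) hWh hh20 hl0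
      hB s (fun p hp => hPm p (hsP s hs p hp)) (fun p hp => (hg p (hsP s hs p hp)).1)
  refine (Finset.sum_le_sum hkey).trans ?_
  rw [Finset.sum_add_distrib, ← Finset.mul_sum]
  -- first sum
  have hF0 : ∀ q : ℕ, 0 ≤ EQ X q + 2 * Real.log X := fun q => by
    have := EQ_nonneg X q
    linarith
  have hfirst := hSQ K (primorial y₀) z Y (z ^ (4 * b + 6)) C l
    (fun q => EQ X q + 2 * Real.log X) Sd hK (primorial_pos y₀) hC (by linarith)
    (by positivity) hW hF0 (fun s hs => ⟨fun p hp =>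
      ⟨(hPm p (hsP s hs p hp)).1, (hPm p (hsP s hs p hp)).2.2⟩, hS1 s hs⟩)
  have hyX : z ^ (4 * b + 6) * Y ^ 2 ≤ X ^ (1 / 2 - ε / 2) := by
    have h1 : z ^ (4 * b + 6) ≤ X ^ (ε / 2) := by
      rw [hz, ← Real.rpow_natCast, ← Real.rpow_mul hX0.le]
      refine Real.rpow_le_rpow_of_exponent_le hX1 ?_
      push_cast
      exact hδb
    calc z ^ (4 * b + 6) * Y ^ 2 ≤ X ^ (ε / 2) * X ^ (1 / 2 - ε) :=
          mul_le_mul h1 hYX (by positivity) (by positivity)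
      _ = X ^ (1 / 2 - ε / 2) := by
          rw [← Real.rpow_add hX0]
          congr 1
          ring
  set M := ⌊z ^ (4 * b + 6) * Y ^ 2⌋₊ with hM
  have hMX : (M : ℝ) ≤ X ^ (1 / 2 - ε / 2) := (Nat.floor_le (by positivity)).trans hyX
  have hWM : ((primorial y₀ * M : ℕ) : ℝ) ≤ X ^ (1 / 2 - ε / 4) := by
    push_cast
    calc (primorial y₀ : ℝ) * M ≤ X ^ (ε / 4) * X ^ (1 / 2 - ε / 2) :=
          mul_le_mul (hX₆ X e6) hMX (Nat.cast_nonneg _) (by positivity)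
      _ = X ^ (1 / 2 - ε / 4) := by
          rw [← Real.rpow_add hX0]
          congr 1
          ring
  have hbk := hBKX X e1 (primorial y₀ * M) hWM
  have hK'1 : (1 : ℝ) ≤ ((3 * K * (K + 1) : ℕ) : ℝ) := by
    have : 1 ≤ 3 * K * (K + 1) := by nlinarith
    exact_mod_cast this
  have hsum : ∑ q ∈ Icc 1 M, (3 * (K : ℝ) * (K + 1)) ^ om q *
      (EQ X (primorial y₀ * q) + 2 * Real.log X) ≤ X / Real.log X ^ (A + 1) := by
    refine le_trans ?_ hbk
    have hWpos := primorial_pos y₀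
    calc ∑ q ∈ Icc 1 M, (3 * (K : ℝ) * (K + 1)) ^ om q *
          (EQ X (primorial y₀ * q) + 2 * Real.log X)
        ≤ ∑ q ∈ Icc 1 M, ((3 * K * (K + 1) : ℕ) : ℝ) ^ om (primorial y₀ * q) *
          (EQ X (primorial y₀ * q) + Real.log X ^ 2) := by
          refine Finset.sum_le_sum fun q hq => ?_
          obtain ⟨hq1, hq2⟩ := mem_Icc.1 hq
          have h1 : om q ≤ om (primorial y₀ * q) := by
            unfold om
            exact card_le_card (Nat.primeFactors_mono (dvd_mul_left _ _)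
              (Nat.mul_pos hWpos hq1).ne')
          have h2 := EQ_nonneg X (primorial y₀ * q)
          refine mul_le_mul ?_ (by nlinarith) (hF0 _) (by positivity)
          have h3 : (3 * (K : ℝ) * (K + 1)) = ((3 * K * (K + 1) : ℕ) : ℝ) := by push_cast; ring
          rw [h3]
          exact pow_le_pow_right₀ hK'1 h1
      _ = ∑ d ∈ (Icc 1 M).image (fun q => primorial y₀ * q),
            ((3 * K * (K + 1) : ℕ) : ℝ) ^ om d * (EQ X d + Real.log X ^ 2) := by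
          rw [Finset.sum_image]
          intro a _ b _ hab
          exact Nat.eq_of_mul_eq_mul_left hWpos hab
      _ ≤ ∑ d ∈ Icc 1 (primorial y₀ * M),
            ((3 * K * (K + 1) : ℕ) : ℝ) ^ om d * (EQ X d + Real.log X ^ 2) := by
          apply Finset.sum_le_sum_of_subset_of_nonneg
          · intro d hd
            obtain ⟨q, hq, rfl⟩ := mem_image.1 hd
            obtain ⟨hq1, hq2⟩ := mem_Icc.1 hq
            exact mem_Icc.2 ⟨Nat.mul_pos hWpos hq1, Nat.mul_le_mul_left _ hq2⟩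
          · intro d _ _
            have h2 := EQ_nonneg X d
            positivity
  have hlA : 0 < Real.log X ^ A := by positivity
  have hf1 : C ^ 2 * (X / Real.log X ^ (A + 1)) ≤ 1 / 2 * (X / Real.log X ^ A) := by
    have h1 : 0 ≤ X / Real.log X ^ A := by positivity
    have h2 : X / Real.log X ^ (A + 1) = X / Real.log X ^ A / Real.log X := by
      rw [pow_succ (Real.log X) A, ← div_div]
    rw [h2, ← mul_div_assoc, div_le_iff₀ (by linarith)]
    nlinarith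
  have hWXX : WX X ≤ 100 * X := (hWMX X e5').2
  have hWX0 := WX_nonneg X
  have hf2 : WX X * (C' * X ^ (-δ)) * (C₂ * Real.log z ^ B₂) ≤
      1 / 2 * (X / Real.log X ^ A) := by
    rw [← mul_div_assoc (1 / 2 : ℝ), le_div_iff₀ hlA]
    have h1 := hX₂ X e2
    rw [hlz, mul_pow]
    have h3 : X ^ (-δ) * X ^ δ = 1 := by
      rw [← Real.rpow_add hX0]
      simp
    have h4 : 0 < X ^ (-δ) := by positivity
    have h5 : 0 ≤ Real.log X := by linarith
    calc WX X * (C' * X ^ (-δ)) * (C₂ * (δ ^ B₂ * Real.log X ^ B₂)) * Real.log X ^ A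
        ≤ (100 * X) * (C' * X ^ (-δ)) * (C₂ * (δ ^ B₂ * Real.log X ^ B₂)) * Real.log X ^ A := by
          gcongr
      _ = 1 / 2 * X * X ^ (-δ) * (200 * C' * C₂ * δ ^ B₂ * Real.log X ^ (B₂ + A)) := by
          rw [pow_add]
          ring
      _ ≤ 1 / 2 * X * X ^ (-δ) * X ^ δ := by gcongr
      _ = 1 / 2 * X * (X ^ (-δ) * X ^ δ) := by ring
      _ = 1 / 2 * X := by rw [h3, mul_one]
  have hA1 := hfirst.trans ((mul_le_mul_of_nonneg_left hsum (sq_nonneg C)).trans hf1)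
  have hA2 : WX X * (C' * X ^ (-δ)) * ∑ s ∈ Sd, ∏ p ∈ s, ((nu h p : ℝ) - 1) / ((p : ℝ) - 1) ≤
      1 / 2 * (X / Real.log X ^ A) :=
    (mul_le_mul_of_nonneg_left hS2 (by positivity)).trans hf2
  linarith

end Pool.Agent.H92.MTP
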